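import Mathlib

/-!
Latin triangles: definitions and the general upper bounds.
-/

namespace Pool.Agent.MP38ebc3

/-- The triple `p = (a, b, c)` is a cell of the triangle of order `n`. -/
def IsCell (n : ℕ) (p : ℕ × ℕ × ℕ) : Prop :=
  1 ≤ p.1 ∧ 1 ≤ p.2.1 ∧ 1 ≤ p.2.2 ∧ p.1 + p.2.1 + p.2.2 = n + 2

instance (n : ℕ) (p : ℕ × ℕ × ℕ) : Decidable (IsCell n p) := by
  unfold IsCell; infer_instance

/-- The cells of the triangle of order `n`. -/
abbrev Cell (n : ℕ) : Type := {p : ℕ × ℕ × ℕ // IsCell n p}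

/-- The three coordinates of a triple. -/
def coord (x : Fin 3) (p : ℕ × ℕ × ℕ) : ℕ :=
  if x = 0 then p.1 else if x = 1 then p.2.1 else p.2.2

/-- The cell `p` lies on the `x`-line `x = i`. -/
def OnLine (n : ℕ) (x : Fin 3) (i : ℕ) (p : ℕ × ℕ × ℕ) : Prop :=
  if n % 2 = 0 then coord x p = i ∨ coord x p = n + 1 - i
  else if i = 1 then coord x p = 1
  else coord x p = i ∨ coord x p = n + 2 - i

instance (n : ℕ) (x : Fin 3) (i : ℕ) (p : ℕ × ℕ × ℕ) : Decidable (OnLine n x i p) := by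
  unfold OnLine; infer_instance

/-- `T` is a latin triangle of order `n`, with symbol set `Fin (2 * (n / 2) + 1)`. -/
def IsLT (n : ℕ) (T : Cell n → Fin (2 * (n / 2) + 1)) : Prop :=
  ∀ (x : Fin 3) (i : ℕ), 1 ≤ i → i ≤ (n + 1) / 2 →
    ∀ s, ∃! p : Cell n, OnLine n x i p.1 ∧ T p = s

/-- The ordered pairs of symbols obtained by superimposing `T` and `T'` are distinct. -/
def Orth {n : ℕ} (T T' : Cell n → Fin (2 * (n / 2) + 1)) : Prop :=
  ∀ p q : Cell n, T p = T q → T' p = T' q → p = q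

/-- `F` is a set of mutually orthogonal latin triangles of order `n`. -/
def IsMOLT (n : ℕ) (F : Finset (Cell n → Fin (2 * (n / 2) + 1))) : Prop :=
  (∀ T ∈ F, IsLT n T) ∧ ∀ T ∈ F, ∀ T' ∈ F, T ≠ T' → Orth T T'

/-- `k` is the largest size of a set of mutually orthogonal latin triangles of order `n`. -/
def IsMaxMOLT (n k : ℕ) : Prop :=
  IsGreatest {r : ℕ | ∃ F : Finset (Cell n → Fin (2 * (n / 2) + 1)), IsMOLT n F ∧ F.card = r} k

theorem Orth.symm {n : ℕ} {T T' : Cell n → Fin (2 * (n / 2) + 1)} (h : Orth T T') : Orth T' T :=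
  fun p q h1 h2 => h p q h2 h1

/-- two cells of a line carry different symbols -/
theorem IsLT.inj {n : ℕ} {T : Cell n → Fin (2 * (n / 2) + 1)} (hT : IsLT n T) {x : Fin 3} {i : ℕ}
    (h1 : 1 ≤ i) (h2 : i ≤ (n + 1) / 2) {p q : Cell n} (hp : OnLine n x i p.1)
    (hq : OnLine n x i q.1) (h : T p = T q) : p = q :=
  (hT x i h1 h2 (T q)).unique ⟨hp, h⟩ ⟨hq, rfl⟩

theorem upper_even {n : ℕ} (hn : Even n) (h6 : 6 ≤ n)
    (F : Finset (Cell n → Fin (2 * (n / 2) + 1))) (hF : IsMOLT n F) : F.card ≤ n - 5 := by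
  classical
  have hn0 : n % 2 = 0 := Nat.even_iff.mp hn
  let p : Cell n := ⟨(n - 2, 2, 2), by unfold IsCell; simp; omega⟩
  have hex : ∀ T : {T // T ∈ F}, ∃ q : Cell n, OnLine n 0 2 q.1 ∧ T.1 q = T.1 p := fun T =>
    (hF.1 T.1 T.2 0 2 (by omega) (by omega) (T.1 p)).exists
  choose q hq1 hq2 using hex
  have hpn : ¬ OnLine n 0 2 p.1 := by
    simp only [OnLine, coord, hn0, p]
    simp
    omega
  have hqp : ∀ T, q T ≠ p := fun T h => hpn (h ▸ hq1 T)
  have hb : ∀ T, ¬ OnLine n 1 2 (q T).1 := by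
    intro T h
    refine hqp T ((hF.1 T.1 T.2).inj (x := 1) (i := 2) (by omega) (by omega) h ?_ (hq2 T))
    simp [OnLine, coord, hn0, p]
  have hc : ∀ T, ¬ OnLine n 2 2 (q T).1 := by
    intro T h
    refine hqp T ((hF.1 T.1 T.2).inj (x := 2) (i := 2) (by omega) (by omega) h ?_ (hq2 T))
    simp [OnLine, coord, hn0, p]
  have hinj : Function.Injective q := by
    intro T T' h
    by_contra hne
    have hne' : T.1 ≠ T'.1 := fun h => hne (Subtype.ext h)
    have := hF.2 T.1 T.2 T'.1 T'.2 hne' (q T) p (hq2 T) (by rw [h]; exact hq2 T')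
    exact hqp T this
  have hform : ∀ T, (q T).1.1 = 2 ∧ (q T).1.2.1 ∈ Finset.Icc 3 (n - 3) := by
    intro T
    rcases h : q T with ⟨⟨a, b, c⟩, hcell⟩
    have h1 := hq1 T
    have h2 := hb T
    have h3 := hc T
    rw [h] at h1 h2 h3
    simp only [OnLine, coord, hn0] at h1 h2 h3
    simp at h1 h2 h3
    obtain ⟨c1, c2, c3, c4⟩ := hcell
    simp at c1 c2 c3 c4
    simp only [Finset.mem_Icc]
    omega
  have hinj2 : Function.Injective fun T => (q T).1.2.1 := by
    intro T T' h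
    apply hinj
    apply Subtype.ext
    have e1 := (hform T).1
    have e2 := (hform T').1
    have d1 := (q T).2.2.2.2
    have d2 := (q T').2.2.2.2
    simp only at h
    ext <;> omega
  have hcard : Fintype.card {T // T ∈ F} ≤ (Finset.Icc 3 (n - 3)).card := by
    rw [← Finset.card_univ]
    exact Finset.card_le_card_of_injOn (fun T => (q T).1.2.1) (fun T _ => (hform T).2)
      (fun T _ T' _ h => hinj2 h)
  rw [Fintype.card_coe, Nat.card_Icc] at hcard
  omega

theorem upper_odd {n : ℕ} (hn : Odd n) (h5 : 5 ≤ n)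
    (F : Finset (Cell n → Fin (2 * (n / 2) + 1))) (hF : IsMOLT n F) : F.card ≤ n - 4 := by
  classical
  have hn0 : n % 2 = 1 := Nat.odd_iff.mp hn
  let p : Cell n := ⟨(n - 2, 2, 2), by unfold IsCell; simp; omega⟩
  have hex : ∀ T : {T // T ∈ F}, ∃ q : Cell n, OnLine n 0 1 q.1 ∧ T.1 q = T.1 p := fun T =>
    (hF.1 T.1 T.2 0 1 (by omega) (by omega) (T.1 p)).exists
  choose q hq1 hq2 using hex
  have hpn : ¬ OnLine n 0 1 p.1 := by
    simp only [OnLine, coord, hn0, p]
    simp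
    omega
  have hqp : ∀ T, q T ≠ p := fun T h => hpn (h ▸ hq1 T)
  have hb : ∀ T, ¬ OnLine n 1 2 (q T).1 := by
    intro T h
    refine hqp T ((hF.1 T.1 T.2).inj (x := 1) (i := 2) (by omega) (by omega) h ?_ (hq2 T))
    simp [OnLine, coord, hn0, p]
  have hc : ∀ T, ¬ OnLine n 2 2 (q T).1 := by
    intro T h
    refine hqp T ((hF.1 T.1 T.2).inj (x := 2) (i := 2) (by omega) (by omega) h ?_ (hq2 T))
    simp [OnLine, coord, hn0, p]
  have hinj : Function.Injective q := by
    intro T T' h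
    by_contra hne
    have hne' : T.1 ≠ T'.1 := fun h => hne (Subtype.ext h)
    have := hF.2 T.1 T.2 T'.1 T'.2 hne' (q T) p (hq2 T) (by rw [h]; exact hq2 T')
    exact hqp T this
  have hform : ∀ T, (q T).1.1 = 1 ∧ (q T).1.2.1 ∈ Finset.Icc 3 (n - 2) := by
    intro T
    rcases h : q T with ⟨⟨a, b, c⟩, hcell⟩
    have h1 := hq1 T
    have h2 := hb T
    have h3 := hc T
    rw [h] at h1 h2 h3
    simp only [OnLine, coord, hn0] at h1 h2 h3
    simp at h1 h2 h3
    obtain ⟨c1, c2, c3, c4⟩ := hcell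
    simp at c1 c2 c3 c4
    simp only [Finset.mem_Icc]
    omega
  have hinj2 : Function.Injective fun T => (q T).1.2.1 := by
    intro T T' h
    apply hinj
    apply Subtype.ext
    have e1 := (hform T).1
    have e2 := (hform T').1
    have d1 := (q T).2.2.2.2
    have d2 := (q T').2.2.2.2
    simp only at h
    ext <;> omega
  have hcard : Fintype.card {T // T ∈ F} ≤ (Finset.Icc 3 (n - 2)).card := by
    rw [← Finset.card_univ]
    exact Finset.card_le_card_of_injOn (fun T => (q T).1.2.1) (fun T _ => (hform T).2)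
      (fun T _ T' _ h => hinj2 h)
  rw [Fintype.card_coe, Nat.card_Icc] at hcard
  omega

end Pool.Agent.MP38ebc3
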