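import Pool.Agent.Lib.MP_38ebc3_co.Defs

/-!
Latin triangles: checkable certificates (examples, and forced pairs of cells).
-/

namespace Pool.Agent.MP38ebc3

/-- all cells, as a list -/
def cells (n : ℕ) : List (ℕ × ℕ × ℕ) :=
  (List.range n).flatMap fun a => (List.range (n - a)).map fun b => (a + 1, b + 1, n - a - b)

theorem mem_cells {n : ℕ} {p : ℕ × ℕ × ℕ} : p ∈ cells n ↔ IsCell n p := by
  obtain ⟨a, b, c⟩ := p
  simp only [cells, List.mem_flatMap, List.mem_map, List.mem_range, IsCell, Prod.mk.injEq]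
  constructor
  · rintro ⟨a', h1, b', h2, h3, h4, h5⟩
    omega
  · rintro ⟨h1, h2, h3, h4⟩
    exact ⟨a - 1, by omega, b - 1, by omega, by omega, by omega, by omega⟩

/-- number of the line through a coordinate -/
def ln (n i : ℕ) : ℕ := if n % 2 = 0 then min i (n + 1 - i) else if i = 1 then 1 else min i (n + 2 - i)

theorem onLine_ln {n : ℕ} {x : Fin 3} {p : ℕ × ℕ × ℕ} (hp : IsCell n p) :
    OnLine n x (ln n (coord x p)) p := by
  obtain ⟨h1, h2, h3, h4⟩ := hp
  have hx1 : 1 ≤ coord x p := by unfold coord; split_ifs <;> omega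
  have hx2 : coord x p ≤ n := by unfold coord; split_ifs <;> omega
  unfold OnLine ln
  generalize coord x p = y at *
  split_ifs <;> omega

theorem ln_range {n : ℕ} {x : Fin 3} {p : ℕ × ℕ × ℕ} (hp : IsCell n p) :
    1 ≤ ln n (coord x p) ∧ ln n (coord x p) ≤ (n + 1) / 2 := by
  obtain ⟨h1, h2, h3, h4⟩ := hp
  have hx1 : 1 ≤ coord x p := by unfold coord; split_ifs <;> omega
  have hx2 : coord x p ≤ n := by unfold coord; split_ifs <;> omega
  unfold ln
  generalize coord x p = y at *
  split_ifs <;> omega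

theorem ln_eq_of_onLine {n : ℕ} {x : Fin 3} {i : ℕ} {p : ℕ × ℕ × ℕ} (hp : IsCell n p)
    (hi1 : 1 ≤ i) (hi2 : i ≤ (n + 1) / 2) (h : OnLine n x i p) : ln n (coord x p) = i := by
  obtain ⟨h1, h2, h3, h4⟩ := hp
  have hx1 : 1 ≤ coord x p := by unfold coord; split_ifs <;> omega
  have hx2 : coord x p ≤ n := by unfold coord; split_ifs <;> omega
  unfold OnLine at h
  unfold ln
  generalize coord x p = y at *
  split_ifs at h ⊢ <;> omega

/-- table lookup -/
def look (tab : List (List ℕ)) (p : ℕ × ℕ × ℕ) : ℕ := (tab.getD (p.1 - 1) []).getD (p.2.1 - 1) 0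

/-- the filling with a given table -/
def mk (n : ℕ) (tab : List (List ℕ)) : Cell n → Fin (2 * (n / 2) + 1) :=
  fun p => Fin.ofNat _ (look tab p.1)

/-- checks that a table is a latin triangle -/
def chkLT (n : ℕ) (tab : List (List ℕ)) : Bool :=
  (List.finRange 3).all fun x => (List.range ((n + 1) / 2)).all fun i =>
    (List.range (2 * (n / 2) + 1)).all fun s =>
      ((cells n).filter fun p =>
        decide (OnLine n x (i + 1) p) && (look tab p % (2 * (n / 2) + 1) == s)).length == 1

theorem chkLT_sound {n : ℕ} {tab : List (List ℕ)} (h : chkLT n tab = true) : IsLT n (mk n tab) := by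
  intro x i hi1 hi2 s
  simp only [chkLT, List.all_eq_true, List.mem_range, beq_iff_eq] at h
  have h1 := h x (List.mem_finRange x) (i - 1) (by omega) s.1 s.2
  rw [List.length_eq_one_iff] at h1
  obtain ⟨r, hr⟩ := h1
  have key : ∀ p : ℕ × ℕ × ℕ, p = r ↔ IsCell n p ∧ OnLine n x i p ∧
      look tab p % (2 * (n / 2) + 1) = s.1 := by
    intro p
    have : p ∈ [r] ↔ p = r := by simp
    rw [← this, ← hr, List.mem_filter, mem_cells]
    have e : i - 1 + 1 = i := by omega
    simp [e]
  have key2 : ∀ p : Cell n, mk n tab p = s ↔ look tab p.1 % (2 * (n / 2) + 1) = s.1 := by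
    intro p
    rw [Fin.ext_iff]
    simp [mk, Fin.ofNat]
  obtain ⟨hr1, hr2, hr3⟩ := (key r).1 rfl
  refine ⟨⟨r, hr1⟩, ⟨hr2, (key2 _).2 hr3⟩, ?_⟩
  rintro p ⟨hp1, hp2⟩
  exact Subtype.ext ((key p.1).2 ⟨p.2, hp1, (key2 p).1 hp2⟩)

/-- checks that two tables are orthogonal -/
def chkOrth (n : ℕ) (tab tab' : List (List ℕ)) : Bool :=
  (cells n).all fun p => (cells n).all fun q =>
    !(look tab p % (2 * (n / 2) + 1) == look tab q % (2 * (n / 2) + 1)) ||
    (!(look tab' p % (2 * (n / 2) + 1) == look tab' q % (2 * (n / 2) + 1)) || decide (p = q))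

theorem chkOrth_sound {n : ℕ} {tab tab' : List (List ℕ)} (h : chkOrth n tab tab' = true) :
    Orth (mk n tab) (mk n tab') := by
  intro p q h1 h2
  simp only [chkOrth, List.all_eq_true] at h
  have := h p.1 (mem_cells.2 p.2) q.1 (mem_cells.2 q.2)
  rw [Fin.ext_iff] at h1 h2
  simp only [mk, Fin.ofNat] at h1 h2
  simp only [h1, h2] at this
  simp at this
  exact Subtype.ext this

/-- code of a cell -/
def code (p : ℕ × ℕ × ℕ) : ℕ := 16 * p.1 + p.2.1

/-- mask of a list of cells -/
def mask : List (ℕ × ℕ × ℕ) → ℕ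
  | [] => 0
  | r :: l => (1 <<< code r) ||| mask l

theorem testBit_mask (l : List (ℕ × ℕ × ℕ)) (j : ℕ) :
    (mask l).testBit j = true ↔ ∃ r ∈ l, code r = j := by
  induction l with
  | nil => simp [mask]
  | cons r l ih =>
    rw [mask, Nat.testBit_or, Bool.or_eq_true, ih]
    simp only [List.mem_cons, exists_eq_or_imp]
    refine or_congr ?_ Iff.rfl
    rw [Nat.one_shiftLeft, Nat.testBit_two_pow]
    simp

theorem code_inj {n : ℕ} (hn : n ≤ 15) {p q : ℕ × ℕ × ℕ} (hp : IsCell n p) (hq : IsCell n q)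
    (h : code p = code q) : p = q := by
  obtain ⟨a, b, c⟩ := p
  obtain ⟨a', b', c'⟩ := q
  simp only [IsCell, code] at *
  simp only [Prod.mk.injEq]
  omega

/-- checks that every possible symbol class has its mask in the list -/
def gen (n : ℕ) (Ps : List ℕ) : List ℕ → List (ℕ × ℕ × ℕ) → Bool
  | [], ch => Ps.contains (mask ch)
  | i :: is, ch => (cells n).all fun r =>
      !(ln n r.1 == i) ||
      (!(ch.all fun r' => !(ln n r.2.1 == ln n r'.2.1) && !(ln n r.2.2 == ln n r'.2.2)) ||
        gen n Ps is (r :: ch))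

theorem gen_sound {n : ℕ} {Ps : List ℕ} {g : ℕ → ℕ × ℕ × ℕ} :
    ∀ (is : List ℕ) (ch : List (ℕ × ℕ × ℕ)),
      (∀ i ∈ is, IsCell n (g i) ∧ ln n (g i).1 = i) →
      (is.Pairwise fun i j => ln n (g j).2.1 ≠ ln n (g i).2.1 ∧ ln n (g j).2.2 ≠ ln n (g i).2.2) →
      (∀ i ∈ is, ∀ r ∈ ch, ln n (g i).2.1 ≠ ln n r.2.1 ∧ ln n (g i).2.2 ≠ ln n r.2.2) →
      gen n Ps is ch = true →
      ∃ l : List (ℕ × ℕ × ℕ), mask l ∈ Ps ∧ ∀ r, r ∈ l ↔ r ∈ ch ∨ ∃ i ∈ is, g i = r := by
  intro is
  induction is with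
  | nil =>
    intro ch _ _ _ h
    refine ⟨ch, ?_, by simp⟩
    simpa [gen] using h
  | cons i is ih =>
    intro ch h1 h2 h3 h
    rw [List.pairwise_cons] at h2
    simp only [gen, List.all_eq_true] at h
    have h4 := h (g i) (mem_cells.2 (h1 i (by simp)).1)
    have h5 : gen n Ps is (g i :: ch) = true := by
      have e1 : (ln n (g i).1 == i) = true := by rw [(h1 i (by simp)).2]; simp
      have e2 : (ch.all fun r' => !(ln n (g i).2.1 == ln n r'.2.1) &&
          !(ln n (g i).2.2 == ln n r'.2.2)) = true := by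
        rw [List.all_eq_true]
        intro r hr
        have := h3 i (by simp) r hr
        simp [this.1, this.2]
      rw [e1, e2] at h4
      simpa using h4
    obtain ⟨l, hl1, hl2⟩ := ih (g i :: ch) (fun j hj => h1 j (by simp [hj])) h2.2
      (by
        intro j hj r hr
        rcases List.mem_cons.1 hr with rfl | hr
        · exact h2.1 j hj
        · exact h3 j (by simp [hj]) r hr) h5
    refine ⟨l, hl1, fun r => ?_⟩
    rw [hl2]
    simp only [List.mem_cons, exists_eq_or_imp]
    constructor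
    · rintro ((h | h) | h)
      · exact Or.inr (Or.inl h.symm)
      · exact Or.inl h
      · exact Or.inr (Or.inr h)
    · rintro (h | h | h)
      · exact Or.inl (Or.inr h)
      · exact Or.inl (Or.inl h.symm)
      · exact Or.inr h

/-- every symbol class of a latin triangle has its mask in the list -/
theorem class_mem {n : ℕ} (hn1 : 1 ≤ n) (hn : n ≤ 15) {Ps : List ℕ}
    (hg : gen n Ps (List.range' 1 ((n + 1) / 2)) [] = true)
    {T : Cell n → Fin (2 * (n / 2) + 1)} (hT : IsLT n T) (s : Fin (2 * (n / 2) + 1)) :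
    ∃ m ∈ Ps, (∀ r : Cell n, m.testBit (code r.1) = true ↔ T r = s) ∧
      ∀ j, m.testBit j = true → ∃ r : Cell n, code r.1 = j := by
  classical
  have hex : ∀ i : ℕ, ∃ r : Cell n, 1 ≤ i → i ≤ (n + 1) / 2 → OnLine n 0 i r.1 ∧ T r = s := by
    intro i
    by_cases h : 1 ≤ i ∧ i ≤ (n + 1) / 2
    · obtain ⟨r, hr, -⟩ := hT 0 i h.1 h.2 s
      exact ⟨r, fun _ _ => hr⟩
    · exact ⟨⟨(n, 1, 1), by unfold IsCell; simp; omega⟩, fun h1 h2 => absurd ⟨h1, h2⟩ h⟩
  choose g hg1 using hex
  have hrange : ∀ i, i ∈ List.range' 1 ((n + 1) / 2) ↔ 1 ≤ i ∧ i ≤ (n + 1) / 2 := by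
    intro i
    rw [List.mem_range']
    constructor
    · rintro ⟨k, hk, rfl⟩
      omega
    · rintro ⟨h1, h2⟩
      exact ⟨i - 1, by omega, by omega⟩
  have hlna : ∀ i, 1 ≤ i → i ≤ (n + 1) / 2 → ln n (g i).1.1 = i := by
    intro i h1 h2
    have := ln_eq_of_onLine (g i).2 h1 h2 (hg1 i h1 h2).1
    simpa [coord] using this
  have hne : ∀ i j, 1 ≤ i → i ≤ (n + 1) / 2 → 1 ≤ j → j ≤ (n + 1) / 2 → i ≠ j →
      ln n (g j).1.2.1 ≠ ln n (g i).1.2.1 ∧ ln n (g j).1.2.2 ≠ ln n (g i).1.2.2 := by
    intro i j hi1 hi2 hj1 hj2 hij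
    have hTT : T (g j) = T (g i) := by rw [(hg1 j hj1 hj2).2, (hg1 i hi1 hi2).2]
    have hgg : g j ≠ g i := by
      intro h
      apply hij
      rw [← hlna i hi1 hi2, ← hlna j hj1 hj2, h]
    constructor
    · intro h
      apply hgg
      have l1 := onLine_ln (x := 1) (g j).2
      have l2 := onLine_ln (x := 1) (g i).2
      have l3 := ln_range (x := 1) (g i).2
      have e1 : coord 1 (g j).1 = (g j).1.2.1 := by simp [coord]
      have e2 : coord 1 (g i).1 = (g i).1.2.1 := by simp [coord]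
      rw [e1] at l1
      rw [e2] at l2 l3
      rw [h] at l1
      exact hT.inj l3.1 l3.2 l1 l2 hTT
    · intro h
      apply hgg
      have l1 := onLine_ln (x := 2) (g j).2
      have l2 := onLine_ln (x := 2) (g i).2
      have l3 := ln_range (x := 2) (g i).2
      have e1 : coord 2 (g j).1 = (g j).1.2.2 := by simp [coord]
      have e2 : coord 2 (g i).1 = (g i).1.2.2 := by simp [coord]
      rw [e1] at l1
      rw [e2] at l2 l3
      rw [h] at l1
      exact hT.inj l3.1 l3.2 l1 l2 hTT
  have hpw : (List.range' 1 ((n + 1) / 2)).Pairwise fun i j =>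
      ln n (g j).1.2.1 ≠ ln n (g i).1.2.1 ∧ ln n (g j).1.2.2 ≠ ln n (g i).1.2.2 := by
    have h0 : (List.range' 1 ((n + 1) / 2)).Pairwise (· < ·) := List.pairwise_lt_range'
    refine List.Pairwise.imp_of_mem ?_ h0
    intro i j hi hj hij
    rw [hrange] at hi hj
    exact hne i j hi.1 hi.2 hj.1 hj.2 (Nat.ne_of_lt hij)
  obtain ⟨l, hl1, hl2⟩ := gen_sound (g := fun i => (g i).1) (List.range' 1 ((n + 1) / 2)) []
    (fun i hi => ⟨(g i).2, hlna i ((hrange i).1 hi).1 ((hrange i).1 hi).2⟩) hpw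
    (by simp) hg
  refine ⟨mask l, hl1, ?_, ?_⟩
  · intro r
    rw [testBit_mask]
    constructor
    · rintro ⟨q, hq, hqr⟩
      rw [hl2] at hq
      rcases hq with hq | ⟨i, hi, rfl⟩
      · simp at hq
      · have := code_inj hn (g i).2 r.2 hqr
        have h2 : g i = r := Subtype.ext this
        rw [← h2]
        exact (hg1 i ((hrange i).1 hi).1 ((hrange i).1 hi).2).2
    · intro hr
      refine ⟨r.1, (hl2 _).2 (Or.inr ?_), rfl⟩
      have h1 := ln_range (x := 0) r.2
      refine ⟨ln n (coord 0 r.1), (hrange _).2 h1, ?_⟩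
      have h2 := hg1 _ h1.1 h1.2
      have h3 := onLine_ln (x := 0) r.2
      exact congrArg Subtype.val (hT.inj h1.1 h1.2 h2.1 h3 (h2.2.trans hr.symm))
  · intro j hj
    rw [testBit_mask] at hj
    obtain ⟨q, hq, hqr⟩ := hj
    rw [hl2] at hq
    rcases hq with hq | ⟨i, hi, rfl⟩
    · simp at hq
    · exact ⟨g i, hqr⟩

/-- refutes every latin triangle in which the cells with codes `b1`, `b2` have different symbols -/
def search (Ps : List ℕ) (b1 b2 : ℕ) : List ℕ → ℕ → Bool
  | [], _ => false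
  | c :: cs, used =>
    if used.testBit c then search Ps b1 b2 cs used
    else Ps.all fun m => !(m.testBit c) || (!(m &&& used == 0) ||
      ((m.testBit b1 && m.testBit b2) || search Ps b1 b2 cs (used ||| m)))

theorem search_sound {n : ℕ} (hn1 : 1 ≤ n) (hn : n ≤ 15) {Ps : List ℕ}
    (hg : gen n Ps (List.range' 1 ((n + 1) / 2)) [] = true)
    {T : Cell n → Fin (2 * (n / 2) + 1)} (hT : IsLT n T) {p q : Cell n} (hpq : T p ≠ T q) :
    ∀ (cs : List ℕ) (used : ℕ), (∀ c ∈ cs, ∃ r : Cell n, code r.1 = c) →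
      (∃ U : Set (Fin (2 * (n / 2) + 1)), ∀ r : Cell n, used.testBit (code r.1) = true ↔ T r ∈ U) →
      search Ps (code p.1) (code q.1) cs used = false := by
  intro cs
  induction cs with
  | nil => intro used _ _; rfl
  | cons c cs ih =>
    intro used hcs hU
    obtain ⟨U, hU⟩ := hU
    obtain ⟨r, hr⟩ := hcs c (by simp)
    by_contra hcon
    rw [Bool.not_eq_false] at hcon
    unfold search at hcon
    split_ifs at hcon with hc
    · have := ih used (fun c hc => hcs c (by simp [hc])) ⟨U, hU⟩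
      rw [this] at hcon
      exact Bool.false_ne_true hcon
    · rw [List.all_eq_true] at hcon
      have hrU : T r ∉ U := by
        intro h
        apply hc
        rw [← hr]
        exact (hU r).2 h
      obtain ⟨m, hm, hm1, hm2⟩ := class_mem hn1 hn hg hT (T r)
      have h1 := hcon m hm
      have e1 : m.testBit c = true := by
        rw [← hr]
        exact (hm1 r).2 rfl
      have e2 : m &&& used = 0 := by
        apply Nat.eq_of_testBit_eq
        intro j
        rw [Nat.testBit_and, Nat.zero_testBit]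
        by_contra hj
        rw [Bool.not_eq_false, Bool.and_eq_true] at hj
        obtain ⟨t, ht⟩ := hm2 j hj.1
        rw [← ht] at hj
        have t1 := (hm1 t).1 hj.1
        have t2 := (hU t).1 hj.2
        rw [t1] at t2
        exact hrU t2
      have e3 : (m.testBit (code p.1) && m.testBit (code q.1)) = false := by
        by_contra hj
        rw [Bool.not_eq_false, Bool.and_eq_true] at hj
        exact hpq (((hm1 p).1 hj.1).trans ((hm1 q).1 hj.2).symm)
      have e4 := ih (used ||| m) (fun c hc => hcs c (by simp [hc])) ⟨insert (T r) U, by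
        intro t
        rw [Nat.testBit_or, Bool.or_eq_true, hU, hm1]
        simp [or_comm]⟩
      rw [e1, e2, e3, e4] at h1
      simp at h1

/-- If the certificate passes, two given cells carry the same symbol in every latin triangle. -/
theorem forced {n : ℕ} (hn1 : 1 ≤ n) (hn : n ≤ 15) {Ps : List ℕ} {p q : Cell n} (cs : List ℕ)
    (hg : gen n Ps (List.range' 1 ((n + 1) / 2)) [] = true)
    (hcs : ∀ c ∈ cs, c ∈ (cells n).map code)
    (hs : search Ps (code p.1) (code q.1) cs 0 = true)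
    {T : Cell n → Fin (2 * (n / 2) + 1)} (hT : IsLT n T) : T p = T q := by
  by_contra hpq
  have := search_sound hn1 hn hg hT hpq cs 0 (by
    intro c hc
    obtain ⟨r, hr, hrc⟩ := List.mem_map.1 (hcs c hc)
    exact ⟨⟨r, mem_cells.1 hr⟩, hrc⟩) ⟨∅, by simp⟩
  rw [this] at hs
  exact Bool.false_ne_true hs

/-- If two cells always carry the same symbol, there are no two orthogonal latin triangles. -/
theorem card_le_one {n : ℕ} {p q : Cell n} (hne : p ≠ q)
    (hf : ∀ T : Cell n → Fin (2 * (n / 2) + 1), IsLT n T → T p = T q)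
    (F : Finset (Cell n → Fin (2 * (n / 2) + 1))) (hF : IsMOLT n F) : F.card ≤ 1 := by
  rw [Finset.card_le_one]
  intro T hT T' hT'
  by_contra h
  exact hne (hF.2 T hT T' hT' h p q (hf T (hF.1 T hT)) (hf T' (hF.1 T' hT')))

end Pool.Agent.MP38ebc3
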