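import Pool.Agent.Lib.MP_38ebc3_co.Data

/-!
Latin triangles: small orders.
-/

namespace Pool.Agent.MP38ebc3

set_option maxRecDepth 100000

theorem exists_MOLT {n : ℕ} (hn : 1 ≤ n) (tabs : List (List (List ℕ)))
    (h1 : (tabs.all fun t => chkLT n t) = true)
    (h2 : (tabs.all fun t => tabs.all fun t' => decide (t = t') || chkOrth n t t') = true)
    (h3 : (tabs.map fun t => look t (1, 1, n) % (2 * (n / 2) + 1)).Nodup) :
    ∃ F : Finset (Cell n → Fin (2 * (n / 2) + 1)), IsMOLT n F ∧ F.card = tabs.length := by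
  classical
  have hnd : (tabs.map (mk n)).Nodup := by
    have : ((tabs.map (mk n)).map fun T =>
        (T ⟨(1, 1, n), by unfold IsCell; simp; omega⟩).1).Nodup := by
      rw [List.map_map]
      exact h3
    exact List.Nodup.of_map _ this
  refine ⟨(tabs.map (mk n)).toFinset, ⟨?_, ?_⟩, ?_⟩
  · intro T hT
    rw [List.mem_toFinset, List.mem_map] at hT
    obtain ⟨t, ht, rfl⟩ := hT
    exact chkLT_sound (List.all_eq_true.1 h1 t ht)
  · intro T hT T' hT' hne
    rw [List.mem_toFinset, List.mem_map] at hT hT'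
    obtain ⟨t, ht, rfl⟩ := hT
    obtain ⟨t', ht', rfl⟩ := hT'
    have h := List.all_eq_true.1 (List.all_eq_true.1 h2 t ht) t' ht'
    rw [Bool.or_eq_true, decide_eq_true_eq] at h
    rcases h with rfl | h
    · exact absurd rfl hne
    · exact chkOrth_sound h
  · rw [List.toFinset_card_of_nodup hnd, List.length_map]

theorem isMax_of {n k : ℕ} (h : ∃ F : Finset (Cell n → Fin (2 * (n / 2) + 1)), IsMOLT n F ∧ F.card = k)
    (h2 : ∀ F : Finset (Cell n → Fin (2 * (n / 2) + 1)), IsMOLT n F → F.card ≤ k) : IsMaxMOLT n k := by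
  refine ⟨h, ?_⟩
  rintro r ⟨F, hF, rfl⟩
  exact h2 F hF

theorem max_one : IsMaxMOLT 1 1 :=
  isMax_of (exists_MOLT (n := 1) le_rfl [[[0]]] (by decide +kernel) (by decide +kernel) (by decide))
    fun F _ => by
      have : Subsingleton (Cell 1 → Fin (2 * (1 / 2) + 1)) :=
        (inferInstance : Subsingleton (Cell 1 → Fin 1))
      exact Finset.card_le_one_of_subsingleton F

theorem max_three : IsMaxMOLT 3 1 :=
  isMax_of (exists_MOLT (n := 3) (by norm_num) tabs3 (by decide +kernel) (by decide +kernel)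
    (by decide +kernel))
    (card_le_one (p := ⟨(1, 1, 3), by decide⟩) (q := ⟨(2, 2, 1), by decide⟩) (by decide)
      fun _ hT => forced (by norm_num) (by norm_num) [code (1, 1, 3)] (Ps := ps3) (by decide +kernel)
        (by decide +kernel) (by decide +kernel) hT)

theorem max_five : IsMaxMOLT 5 1 :=
  isMax_of (exists_MOLT (n := 5) (by norm_num) tabs5 (by decide +kernel) (by decide +kernel)
    (by decide +kernel))
    fun F hF => upper_odd (by decide) le_rfl F hF

theorem max_seven : IsMaxMOLT 7 3 :=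
  isMax_of (exists_MOLT (n := 7) (by norm_num) tabs7 (by decide +kernel) (by decide +kernel)
    (by decide +kernel))
    fun F hF => upper_odd (by decide) (by norm_num) F hF

theorem max_eight : IsMaxMOLT 8 1 :=
  isMax_of (exists_MOLT (n := 8) (by norm_num) tabs8 (by decide +kernel) (by decide +kernel)
    (by decide +kernel))
    (card_le_one (p := ⟨(4, 3, 3), by decide⟩) (q := ⟨(6, 2, 2), by decide⟩) (by decide)
      fun _ hT => forced (by norm_num) (by norm_num) [code (4, 3, 3)] (Ps := ps8) (by decide +kernel)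
        (by decide +kernel) (by decide +kernel) hT)

theorem max_nine : IsMaxMOLT 9 1 :=
  isMax_of (exists_MOLT (n := 9) (by norm_num) tabs9 (by decide +kernel) (by decide +kernel)
    (by decide +kernel))
    (card_le_one (p := ⟨(9, 1, 1), by decide⟩) (q := ⟨(7, 2, 2), by decide⟩) (by decide)
      fun _ hT => forced (by norm_num) (by norm_num) ord9 (Ps := ps9) (by decide +kernel)
        (by decide +kernel) (by decide +kernel) hT)

/-! ### order two -/

theorem isLT_two_iff {T : Cell 2 → Fin (2 * (2 / 2) + 1)} : IsLT 2 T ↔ Function.Bijective T := by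
  have hline : ∀ (x : Fin 3) (p : Cell 2), OnLine 2 x 1 p.1 := by
    rintro x ⟨⟨a, b, c⟩, h1, h2, h3, h4⟩
    simp only at h1 h2 h3 h4
    have hx1 : 1 ≤ coord x (a, b, c) := by unfold coord; split_ifs <;> simp <;> omega
    have hx2 : coord x (a, b, c) ≤ 2 := by unfold coord; split_ifs <;> simp <;> omega
    unfold OnLine
    simp
    omega
  rw [Function.bijective_iff_existsUnique]
  constructor
  · intro h s
    obtain ⟨p, hp, hu⟩ := h 0 1 le_rfl (by norm_num) s
    exact ⟨p, hp.2, fun q hq => hu q ⟨hline 0 q, hq⟩⟩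
  · intro h x i h1 h2 s
    have hi : i = 1 := by omega
    subst hi
    obtain ⟨p, hp, hu⟩ := h s
    exact ⟨p, ⟨hline x p, hp⟩, fun q hq => hu q hq.2⟩

theorem max_two : IsMaxMOLT 2 6 := by
  classical
  have hb : Function.Bijective (mk 2 [[0, 1], [2]]) := isLT_two_iff.1 (chkLT_sound (by decide +kernel))
  let e : Cell 2 ≃ Fin (2 * (2 / 2) + 1) := Equiv.ofBijective _ hb
  let f : Equiv.Perm (Fin (2 * (2 / 2) + 1)) → (Cell 2 → Fin (2 * (2 / 2) + 1)) := fun σ => σ ∘ e
  have hf : Function.Injective f := by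
    intro σ τ h
    ext x
    have := congrFun h (e.symm x)
    simpa [f] using congrArg Fin.val this
  have hcard : (Finset.univ.image f).card = 6 := by
    rw [Finset.card_image_of_injective _ hf, Finset.card_univ, Fintype.card_perm, Fintype.card_fin]
    rfl
  have hmem : ∀ T, T ∈ Finset.univ.image f ↔ IsLT 2 T := by
    intro T
    rw [isLT_two_iff, Finset.mem_image]
    constructor
    · rintro ⟨σ, -, rfl⟩
      exact σ.bijective.comp e.bijective
    · intro hT
      refine ⟨e.symm.trans (Equiv.ofBijective T hT), Finset.mem_univ _, ?_⟩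
      ext p
      simp [f]
  refine isMax_of ⟨Finset.univ.image f, ⟨fun T hT => (hmem T).1 hT, ?_⟩, hcard⟩ ?_
  · intro T hT T' _ _ p q h _
    exact (isLT_two_iff.1 ((hmem T).1 hT)).1 h
  · intro F hF
    rw [← hcard]
    exact Finset.card_le_card fun T hT => (hmem T).2 (hF.1 T hT)

/-! ### lower bounds for larger orders -/

theorem lower_11 : ∃ F : Finset (Cell 11 → Fin (2 * (11 / 2) + 1)), IsMOLT 11 F ∧ F.card = 2 :=
  exists_MOLT (n := 11) (by norm_num) tabs11 (by decide +kernel) (by decide +kernel)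
    (by decide +kernel)

theorem lower_12 : ∃ F : Finset (Cell 12 → Fin (2 * (12 / 2) + 1)), IsMOLT 12 F ∧ F.card = 3 :=
  exists_MOLT (n := 12) (by norm_num) tabs12 (by decide +kernel) (by decide +kernel)
    (by decide +kernel)

theorem lower_13 : ∃ F : Finset (Cell 13 → Fin (2 * (13 / 2) + 1)), IsMOLT 13 F ∧ F.card = 2 :=
  exists_MOLT (n := 13) (by norm_num) tabs13 (by decide +kernel) (by decide +kernel)
    (by decide +kernel)

theorem lower_14 : ∃ F : Finset (Cell 14 → Fin (2 * (14 / 2) + 1)), IsMOLT 14 F ∧ F.card = 2 :=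
  exists_MOLT (n := 14) (by norm_num) tabs14 (by decide +kernel) (by decide +kernel)
    (by decide +kernel)

theorem lower_15 : ∃ F : Finset (Cell 15 → Fin (2 * (15 / 2) + 1)), IsMOLT 15 F ∧ F.card = 2 :=
  exists_MOLT (n := 15) (by norm_num) tabs15 (by decide +kernel) (by decide +kernel)
    (by decide +kernel)

end Pool.Agent.MP38ebc3
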